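import Pool.Agent.Helper55.CF.Goals

open MeasureTheory Complex
open scoped ContDiff ComplexConjugate

noncomputable section
namespace Pool.Agent.Helper42.CF
open CF55

/-- linear polynomial -/
def pol1 (l : V →ₗ[ℂ] ℂ) : MvPolynomial (Fin 6) ℂ :=
  ∑ a, MvPolynomial.C (l (Pi.single a 1)) * MvPolynomial.X a

/-- quadratic polynomial -/
def pol2 (B : V →ₗ[ℂ] V →ₗ[ℂ] ℂ) : MvPolynomial (Fin 6) ℂ :=
  ∑ a, pol1 (B (Pi.single a 1)) * MvPolynomial.X a

/-- cubic polynomial -/
def pol3 (T : Tri) : MvPolynomial (Fin 6) ℂ :=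
  ∑ a, pol2 (T (Pi.single a 1)) * MvPolynomial.X a

theorem vec_eq (w : V) : w = ∑ a, w a • (Pi.single a 1 : V) := by
  funext i
  simp [Finset.sum_apply, Pi.single_apply]

theorem eval_pol1 (l : V →ₗ[ℂ] ℂ) (w : V) : MvPolynomial.eval w (pol1 l) = l w := by
  conv_rhs => rw [vec_eq w]
  simp only [pol1, map_sum, map_mul, MvPolynomial.eval_C, MvPolynomial.eval_X, map_smul,
    smul_eq_mul]
  exact Finset.sum_congr rfl fun a _ => by ring

theorem eval_pol2 (B : V →ₗ[ℂ] V →ₗ[ℂ] ℂ) (w : V) :
    MvPolynomial.eval w (pol2 B) = B w w := by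
  have h : B w = ∑ a, w a • B (Pi.single a 1) := by
    conv_lhs => rw [vec_eq w]
    simp only [map_sum, map_smul]
  rw [h]
  simp only [pol2, map_sum, map_mul, MvPolynomial.eval_X, eval_pol1, LinearMap.sum_apply,
    LinearMap.smul_apply, smul_eq_mul]
  exact Finset.sum_congr rfl fun a _ => by ring

theorem eval_pol3 (T : Tri) (w : V) :
    MvPolynomial.eval w (pol3 T) = T w w w := by
  have h : T w = ∑ a, w a • T (Pi.single a 1) := by
    conv_lhs => rw [vec_eq w]
    simp only [map_sum, map_smul]
  rw [h]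
  simp only [pol3, map_sum, map_mul, MvPolynomial.eval_X, eval_pol2, LinearMap.sum_apply,
    LinearMap.smul_apply, smul_eq_mul]
  exact Finset.sum_congr rfl fun a _ => by ring

/-- the polynomial `N_{s'}` -/
def polN (T : Tri) (s s' : V) : MvPolynomial (Fin 6) ℂ :=
  MvPolynomial.C 3 * pol2 (T s) * pol2 (T s') - MvPolynomial.C 2 * pol3 T * pol1 (T s' s)

theorem eval_polN (T : Tri) (s s' w : V) : MvPolynomial.eval w (polN T s s') =
    3 * T s w w * T s' w w - 2 * T w w w * T s' s w := by
  simp only [polN, map_sub, map_mul, MvPolynomial.eval_C, eval_pol1, eval_pol2, eval_pol3]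

theorem exists_three (P : V) (hP : P ≠ 0) : ∃ a b : V, ∀ x y z : ℂ,
    x • P + y • a + z • b = 0 → x = 0 ∧ y = 0 ∧ z = 0 := by
  have h0 : LinearIndependent ℂ ![P] := by
    rw [linearIndependent_unique_iff]; simpa using hP
  obtain ⟨a, ha⟩ := exists_linearIndependent_cons_of_lt_finrank h0 (by simp)
  obtain ⟨b, hb⟩ := exists_linearIndependent_cons_of_lt_finrank ha (by simp)
  refine ⟨a, b, fun x y z h => ?_⟩
  have := Fintype.linearIndependent_iff.mp hb ![z, y, x] (by
    simp [Fin.sum_univ_succ]
    rw [← h]; abel)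
  exact ⟨by simpa using this 2, by simpa using this 1, by simpa using this 0⟩

theorem root_cubic (A B C D : ℂ) : ∃ x y : ℂ, (x ≠ 0 ∨ y ≠ 0) ∧
    A * x ^ 3 + B * x ^ 2 * y + C * x * y ^ 2 + D * y ^ 3 = 0 := by
  by_cases hA : A = 0
  · exact ⟨1, 0, Or.inl one_ne_zero, by simp [hA]⟩
  · obtain ⟨x, hx⟩ := IsAlgClosed.exists_root
      (Polynomial.C A * Polynomial.X ^ 3 + Polynomial.C B * Polynomial.X ^ 2 +
        Polynomial.C C * Polynomial.X + Polynomial.C D) (by
          rw [Polynomial.degree_cubic hA]; norm_num)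
    refine ⟨x, 1, Or.inr one_ne_zero, ?_⟩
    simpa [Polynomial.IsRoot.def] using hx

theorem stmtNODE (hC : G_CNT) (hA : G_AVOID) (hZ : G_NZ) : G_NODE := by
  intro T P hS hP hker hN
  have hker2 : ∀ v v', T v P v' = 0 := fun v v' => by rw [hS.s12]; exact hker v v'
  have hker3 : ∀ v v', T v v' P = 0 := fun v v' => by rw [hS.s23]; exact hker2 v v'
  by_cases hex : ∃ s, SingPt T P s
  · obtain ⟨s, hs⟩ := hex
    obtain ⟨S, hSc, hSs, hSall⟩ := hC T P hS hP hker hN
    have hne : S.Nonempty := by
      obtain ⟨s0, h0, _⟩ := hSall s hs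
      exact ⟨s0, h0⟩
    obtain ⟨f, hf⟩ := hSc.exists_eq_range hne
    have hNne : ∀ s', SingPt T P s' → polN T s s' ≠ 0 := by
      intro s' hs' h0
      obtain ⟨w, hw⟩ := hZ T P s s' hS hker hN hs hs'
      apply hw
      rw [← eval_polN, h0, map_zero]
    have hqne : pol2 (T s) ≠ 0 := by
      intro h0
      obtain ⟨w, hw⟩ := hZ T P s s hS hker hN hs hs
      apply hw
      have h1 : T s w w = 0 := by rw [← eval_pol2, h0, map_zero]
      rw [h1, hs.2 w]; ring
    obtain ⟨w, hw⟩ := hA (fun n => pol2 (T s) * polN T s (f n)) (fun n => by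
      have : f n ∈ S := by rw [hf]; exact ⟨n, rfl⟩
      exact mul_ne_zero hqne (hNne _ (hSs _ this)))
    have hq : T s w w ≠ 0 := by
      have := hw 0
      rw [map_mul, eval_pol2] at this
      exact left_ne_zero_of_mul this
    have hNw : ∀ s' ∈ S, 3 * T s w w * T s' w w - 2 * T w w w * T s' s w ≠ 0 := by
      intro s' hs'
      rw [hf] at hs'
      obtain ⟨n, rfl⟩ := hs'
      have := hw n
      rw [map_mul, eval_polN] at this
      exact right_ne_zero_of_mul this
    set q := T s w w with hqdef
    set c := T w w w with hcdef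
    have hss : ∀ v, T s s v = 0 := hs.2
    have hss2 : ∀ v, T s v s = 0 := fun v => by rw [hS.s23]; exact hss v
    have hss3 : ∀ v, T v s s = 0 := fun v => by rw [hS.s12]; exact hss2 v
    have hws1 : T w s w = q := by rw [hS.s12]
    have hws2 : T w w s = q := by rw [hS.s23, hS.s12]
    have key : ∀ s', T s' ((3 * q) • w - c • s) ((3 * q) • w - c • s) =
        3 * q * (3 * q * T s' w w - 2 * c * T s' s w) := by
      intro s'
      have h1 : T s' w s = T s' s w := hS.s23 _ _ _
      simp only [map_sub, map_smul, LinearMap.sub_apply, LinearMap.smul_apply, smul_eq_mul, h1,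
        hss3]
      ring
    have huuu : T ((3 * q) • w - c • s) ((3 * q) • w - c • s) ((3 * q) • w - c • s) = 0 := by
      simp only [map_sub, map_smul, LinearMap.sub_apply, LinearMap.smul_apply, smul_eq_mul,
        hss, hss2, hss3, hws1, hws2, ← hqdef, ← hcdef]
      ring
    have hall : ∀ s'', SingPt T P s'' →
        T s'' ((3 * q) • w - c • s) ((3 * q) • w - c • s) ≠ 0 := by
      intro s'' hs''
      obtain ⟨s0, hs0, α, β, hα, rfl⟩ := hSall s'' hs''
      rw [map_add, map_smul, map_smul]
      simp only [LinearMap.add_apply, LinearMap.smul_apply, smul_eq_mul, hker, mul_zero, add_zero]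
      rw [key]
      exact mul_ne_zero hα (mul_ne_zero (mul_ne_zero three_ne_zero hq) (hNw s0 hs0))
    have hli : LinearIndependent ℂ ![P, (3 * q) • w - c • s] := by
      rw [LinearIndependent.pair_iff]
      intro x y hxy
      have hy : y = 0 := by
        by_contra hy
        apply hall s hs
        have h3 : (3 * q) • w - c • s = (-(x / y)) • P := by
          have h4 : y • ((3 * q) • w - c • s) = -(x • P) := by
            rw [eq_neg_iff_add_eq_zero, add_comm]; exact hxy
          calc (3 * q) • w - c • s = y⁻¹ • (y • ((3 * q) • w - c • s)) := by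
                rw [smul_smul, inv_mul_cancel₀ hy, one_smul]
            _ = y⁻¹ • (-(x • P)) := by rw [h4]
            _ = (-(x / y)) • P := by
                rw [smul_neg, smul_smul, neg_smul]; congr 2; field_simp
        rw [h3]
        simp only [map_smul, LinearMap.smul_apply, hker2, smul_zero]
      refine ⟨?_, hy⟩
      rw [hy, zero_smul, add_zero] at hxy
      exact (smul_eq_zero.mp hxy).resolve_right hP
    refine ⟨(3 * q) • w - c • s, hli, huuu, ?_, hall⟩
    by_contra hcon
    push Not at hcon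
    exact hall _ ⟨hli, hcon⟩ huuu
  · push Not at hex
    obtain ⟨a, b, hab⟩ := exists_three P hP
    obtain ⟨x, y, hxy, hroot⟩ := root_cubic (T a a a) (3 * T a a b) (3 * T a b b) (T b b b)
    have hli : LinearIndependent ℂ ![P, x • a + y • b] := by
      rw [LinearIndependent.pair_iff]
      intro r t hrt
      have h1 := hab r (t * x) (t * y) (by
        rw [← hrt, smul_add, smul_smul, smul_smul]; abel)
      refine ⟨h1.1, ?_⟩
      rcases hxy with hx | hy
      · exact (mul_eq_zero.mp h1.2.1).resolve_right hx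
      · exact (mul_eq_zero.mp h1.2.2).resolve_right hy
    refine ⟨x • a + y • b, hli, ?_, ?_, fun s hs => absurd hs (hex s)⟩
    · have e1 : T a b a = T a a b := hS.s23 _ _ _
      have e2 : T b a a = T a a b := by rw [hS.s12, hS.s23]
      have e3 : T b a b = T a b b := hS.s12 _ _ _
      have e4 : T b b a = T a b b := by rw [hS.s23, hS.s12]
      rw [← hroot]
      simp only [map_add, map_smul, LinearMap.add_apply, LinearMap.smul_apply, smul_eq_mul,
        e1, e2, e3, e4]
      ring
    · by_contra hcon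
      push Not at hcon
      exact hex _ ⟨hli, hcon⟩

end Pool.Agent.Helper42.CF
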